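import Pool.Agent.U115.WN.Fin

/-!
# The exact order of magnitude for symmetric matrices of rank `k`

Let `3 ≤ k < n`, `S` the tautological bundle of rank `k` on the Grassmannian `Gr(k, n)` of the
`k`-dimensional subspaces of `ℚⁿ`, and `X = ℙ(Sym² S)`, the variety of the pairs (`V`, line in `Sym² V`): a
smooth projective rational variety of Picard number 2 over `ℚ`, the desingularisation of the variety of the
symmetric `n × n` matrices of rank at most `k` up to scalars. `ξ` is the class with the sections given by the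
entries of the matrix (the dual of the tautological line bundle), `G` is the Plücker class of `Gr(k, n)`.
Then `-K = k (k + 1) / 2 ξ + (n - k - 1) G`; the nef cone is generated by `ξ` and `G`, so `-K` is nef, and it is
big: `X` is a smooth weak Fano variety (Fano if `k < n - 1`).

`U`: the points where the determinant is not zero. Its rational points are the symmetric rational matrices
of rank `k` up to scalars, i.e. the primitive symmetric integer matrices `A` of rank `k` up to sign; `V` is the
column space. The height for `ξ` is the largest absolute value `ht A` of the entries; the height for `G` is the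
covolume of the lattice of the integer vectors in `V`. `H = ht ^ (k (k + 1) / 2) * covol ^ (n - k - 1)` is a
relative height for `-K`.

Theorem. The number of the rational points of `U` with `H ≤ T` is between `c T log T` and `C T log T` for all
large `T`: the order of magnitude of the conjecture of Manin and Peyre, `T (log T) ^ (ρ - 1)` with `ρ = 2` (each
point is counted twice, as `A` and as `- A`).

Proof. Upper bound: a reduced basis of the lattice; at most `C ∏ λ_i ^ n / ∏_{i < j} (λ_j / λ_i)` lattices have a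
basis with the lengths `λ_i`; in the reduced basis `A = B Q Bᵀ` with `|Q i j| ≤ C ht(A) / (λ_i λ_j)`; as
`det Q ≠ 0`, `λ_i λ_(k+1-i) ≤ C ht(A)`, and the loss from the coefficients `Q i j` which must vanish is at most
`(λ_1 / λ_k) ^ (1/2) ∏_{i < j} (λ_j / λ_i)` (for `k ≥ 3`), so the sum over the shapes `(λ_2 / λ_1, ..., λ_k / λ_1)`
converges. Lower bound: there are at least `c λ ^ (n k)` primitive lattices with `λ_i ≤ C λ` for all `i` and
covolume at least `c λ ^ k`, and on each of them at least `c q ^ (k (k + 1) / 2)` primitive matrices `Q` with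
entries at most `q` and `det Q ≠ 0`; sum over `λ = s ^ j`.

Authors (projects WM and WN): helper115 (plan, statements, assembly); the packages of WM: helper580, helper333,
helper461, helper95, helper618, helper255; the packages of WN: helper439, helper480, helper618, helper44,
helper427, helper591, helper165, helper660, helper329, helper574; the reduction theory is from the starting
library (`Pool/Agent/N507/PQ/Hrb.lean`).
-/

set_option autoImplicit false

open Matrix

namespace Pool.Agent.U115.WN.Sep.Sym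

variable {n k : ℕ}

/-- `A` is a primitive symmetric integer matrix of rank `k`: a rational point of `U` -/
def IsPoint (k : ℕ) (A : Matrix (Fin n) (Fin n) ℤ) : Prop :=
  Aᵀ = A ∧ (∀ d : ℤ, (∀ i j, d ∣ A i j) → IsUnit d) ∧ (A.map (Int.cast : ℤ → ℚ)).rank = k

/-- the columns of `B` are a basis of the lattice of the integer vectors in the column space of `A` -/
def IsBasis (A : Matrix (Fin n) (Fin n) ℤ) (B : Matrix (Fin n) (Fin k) ℤ) : Prop :=
  (∀ c : Fin k → ℤ, B *ᵥ c = 0 → c = 0) ∧
    ∀ v : Fin n → ℤ, (∃ c : Fin k → ℤ, B *ᵥ c = v) ↔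
      ∃ d : ℤ, d ≠ 0 ∧ ∃ w : Fin n → ℤ, d • v = A *ᵥ w

/-- the largest absolute value of the entries -/
noncomputable def ht (A : Matrix (Fin n) (Fin n) ℤ) : ℝ := ⨆ p : Fin n × Fin n, |(A p.1 p.2 : ℝ)|

/-- the covolume of the lattice generated by the columns -/
noncomputable def covol (B : Matrix (Fin n) (Fin k) ℤ) : ℝ := √((Bᵀ * B).det : ℝ)

/-- the rational points of `U` with anticanonical height at most `T` -/
def Points (n k : ℕ) (T : ℝ) : Set (Matrix (Fin n) (Fin n) ℤ) :=
  {A | IsPoint k A ∧ ∃ B : Matrix (Fin n) (Fin k) ℤ, IsBasis A B ∧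
    ht A ^ ((k : ℝ) * (k + 1) / 2) * covol B ^ ((n : ℝ) - k - 1) ≤ T}

theorem le_ht (A : Matrix (Fin n) (Fin n) ℤ) (i j : Fin n) : |(A i j : ℝ)| ≤ ht A :=
  le_ciSup (f := fun p : Fin n × Fin n => |(A p.1 p.2 : ℝ)|) (Set.finite_range _).bddAbove (i, j)

theorem ht_nonneg (A : Matrix (Fin n) (Fin n) ℤ) : 0 ≤ ht A :=
  Real.iSup_nonneg fun _ => abs_nonneg _

theorem points_eq (n k : ℕ) (hn : 0 < n) (T : ℝ) :
    Points n k T = Pool.Agent.U115.WM.SymPts n k (k * (k + 1) / 2) (n - k - 1) T := by
  ext A
  constructor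
  · rintro ⟨hA, B, hB, hT'⟩
    refine ⟨hA.1, hA.2.1, hA.2.2, B, ht A, hB, ?_, le_ht A, hT'⟩
    by_contra hneg
    have h0 : ∀ i j, (0 : ℤ) ∣ A i j := fun i j => by
      have h3 : |(A i j : ℝ)| ≤ 0 := (le_ht A i j).trans (not_lt.1 hneg)
      have h4 : (A i j : ℝ) = 0 := abs_nonpos_iff.1 h3
      rw [zero_dvd_iff]
      exact_mod_cast h4
    exact not_isUnit_zero (hA.2.1 0 h0)
  · rintro ⟨h1, h2, h3, B, h, hB, h0, hh, hT'⟩
    refine ⟨⟨h1, h2, h3⟩, B, hB, le_trans ?_ hT'⟩
    haveI : Nonempty (Fin n × Fin n) := ⟨(⟨0, hn⟩, ⟨0, hn⟩)⟩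
    have hle : ht A ≤ h := ciSup_le fun p => hh p.1 p.2
    refine mul_le_mul_of_nonneg_right (Real.rpow_le_rpow (ht_nonneg A) hle (by positivity)) ?_
    exact Real.rpow_nonneg (Real.sqrt_nonneg _) _

theorem result (n k : ℕ) (hk : 3 ≤ k) (hn : k < n) :
    (∀ A : Matrix (Fin n) (Fin n) ℤ, IsPoint k A →
      (∃ B : Matrix (Fin n) (Fin k) ℤ, IsBasis A B) ∧
      ∀ B B' : Matrix (Fin n) (Fin k) ℤ, IsBasis A B → IsBasis A B' → covol B = covol B') ∧
    ∃ c C T₁ : ℝ, 0 < c ∧ 2 ≤ T₁ ∧ ∀ T : ℝ, T₁ ≤ T → (Points n k T).Finite ∧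
      c * (T * Real.log T) ≤ ((Points n k T).ncard : ℝ) ∧
      ((Points n k T).ncard : ℝ) ≤ C * (T * Real.log T) := by
  have hE := Pool.Agent.U618.WM.t_EXB
  have hV := Pool.Agent.U333.WM.t_COV
  refine ⟨fun A hA => ⟨hE n n k A hA.2.2, fun B B' h h' => ?_⟩, ?_⟩
  · refine (hV.1 n k B B' h.1 h'.1 ?_).2
    ext v
    exact (h.2 v).trans (h'.2 v).symm
  · obtain ⟨c, C, T₁, h1, h2, h3⟩ := Pool.Agent.U115.WN.t_osym n k hk hn
    refine ⟨c, C, T₁, h1, h2, fun T hT => ?_⟩
    rw [points_eq n k (by omega) T]
    exact h3 T hT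

end Pool.Agent.U115.WN.Sep.Sym
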